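import Mathlib

set_option autoImplicit false

/-!
# Meromorphic continuations are unique
-/

open Filter Topology

namespace Pool.Agent.R166.SZ

/-- two meromorphic functions on the plane which agree on a half plane have the same orders -/
theorem order_eq {g h : ℂ → ℂ} (hg : ∀ s, MeromorphicAt g s) (hh : ∀ s, MeromorphicAt h s) {σ : ℝ}
    (heq : ∀ s : ℂ, σ ≤ s.re → g s = h s) (s : ℂ) : meromorphicOrderAt g s = meromorphicOrderAt h s := by
  have hd : MeromorphicOn (g - h) Set.univ := fun z _ => (hg z).sub (hh z)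
  have h1 : meromorphicOrderAt (g - h) ((σ + 1 : ℝ) : ℂ) = ⊤ := by
    rw [meromorphicOrderAt_eq_top_iff]
    have h2 : ∀ᶠ z : ℂ in 𝓝 ((σ + 1 : ℝ) : ℂ), σ ≤ z.re := by
      have h3 : ∀ᶠ z : ℂ in 𝓝 ((σ + 1 : ℝ) : ℂ), σ < z.re :=
        (isOpen_lt continuous_const Complex.continuous_re).mem_nhds (by
          show σ < ((σ + 1 : ℝ) : ℂ).re
          rw [Complex.ofReal_re]
          linarith)
      exact h3.mono fun z hz => hz.le
    refine (h2.filter_mono nhdsWithin_le_nhds).mono fun z hz => ?_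
    rw [Pi.sub_apply, heq z hz, sub_self]
  have h2 : meromorphicOrderAt (g - h) s = ⊤ := by
    by_contra hcon
    have h3 := (hd.exists_meromorphicOrderAt_ne_top_iff_forall isConnected_univ).1
      ⟨⟨s, Set.mem_univ _⟩, hcon⟩
    exact h3 ⟨_, Set.mem_univ _⟩ h1
  rw [meromorphicOrderAt_eq_top_iff] at h2
  refine meromorphicOrderAt_congr (h2.mono fun z hz => ?_)
  rw [Pi.sub_apply] at hz
  exact sub_eq_zero.1 hz

end Pool.Agent.R166.SZ
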