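import Pool.Agent.R166.SZ.Zeta
import Pool.Agent.R166.SZ.Mero
import Pool.Agent.H126R3.Phi
import Pool.Agent.R904.EL.Main
import Pool.Agent.R904.CU.KMain

set_option autoImplicit false

/-!
# Convergence of the Euler product (Serre), and meromorphic continuation
-/

open CategoryTheory AlgebraicGeometry Filter Topology
open Pool.Agent.R904.CU Pool.Agent.R904.EL

namespace Pool.Agent.R166.SZ

theorem closure_one : Subring.closure ({1} : Set ℤ) = ⊤ := by
  rw [eq_top_iff]
  rintro x -
  have h1 : (1 : ℤ) ∈ Subring.closure ({1} : Set ℤ) := Subring.subset_closure rfl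
  have h2 := Subring.zsmul_mem _ h1 x
  rwa [smul_eq_mul, mul_one] at h2

theorem Conv.mono {X : Scheme.{0}} {α β : ℝ} (hα : 0 < α) (hαβ : α ≤ β) (h : Conv X α) :
    Conv X β := by
  refine Summable.of_nonneg_of_le (fun x => by positivity) (fun x => ?_) h
  rcases Nat.eq_zero_or_pos (nrm X x.1) with h0 | hpos
  · rw [h0, Nat.cast_zero, Real.zero_rpow (by linarith), Real.zero_rpow (by linarith)]
  · have h1 : (1 : ℝ) ≤ nrm X x.1 := by exact_mod_cast hpos
    exact Real.rpow_le_rpow_of_exponent_le h1 (by linarith)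

/-- the closed points of affine space -/
theorem conv_space (σ : Type) [Fintype σ] :
    Conv (Spec (.of (MvPolynomial σ ℤ))) ((Fintype.card σ : ℝ) + 2) := by
  have h1 := Pool.Agent.H126R3.summable_y (σ := σ) ((Fintype.card σ : ℝ) + 2) (by linarith)
  let g : Cp (Spec (.of (MvPolynomial σ ℤ))) → Pool.Agent.H126R3.Pt σ := fun x =>
    ⟨x.1.asIdeal, (PrimeSpectrum.isClosed_singleton_iff_isMaximal x.1).1 x.2⟩
  have hg : Function.Injective g := by
    intro x y h
    exact Subtype.ext (PrimeSpectrum.ext (congrArg MaximalSpectrum.asIdeal h))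
  refine (h1.comp_injective hg).congr fun x => ?_
  simp only [Function.comp]
  congr 2
  show Nat.card (MvPolynomial σ ℤ ⧸ x.1.asIdeal) = Nat.card ((Spec (.of (MvPolynomial σ ℤ))).residueField x.1)
  have hm : x.1.asIdeal.IsMaximal := (PrimeSpectrum.isClosed_singleton_iff_isMaximal x.1).1 x.2
  have e1 : (MvPolynomial σ ℤ ⧸ x.1.asIdeal) ≃ x.1.asIdeal.ResidueField :=
    Equiv.ofBijective _ (Ideal.bijective_algebraMap_quotient_residueField x.1.asIdeal)
  have e2 : (Spec (.of (MvPolynomial σ ℤ))).residueField x.1 ≃ x.1.asIdeal.ResidueField :=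
    (Scheme.Spec.residueFieldIso (.of (MvPolynomial σ ℤ)) x.1).commRingCatIsoToRingEquiv.toEquiv
  exact Nat.card_congr (e1.trans e2.symm)

theorem conv_open {X U : Scheme.{0}} (f : X ⟶ Spec (.of ℤ)) (hf : LocallyOfFiniteType f)
    (j : U ⟶ X) (hj : IsOpenImmersion j) {α : ℝ} (h : Conv X α) : Conv U α := by
  have hJ := jacobson f hf
  have huc : ∀ u : U, IsClosed ({j u} : Set X) ↔ IsClosed ({u} : Set U) := by
    intro u
    have h1 := j.isOpenEmbedding.preimage_closedPoints
    have h2 : u ∈ j ⁻¹' closedPoints X ↔ u ∈ closedPoints U := by rw [h1]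
    exact h2
  let g : Cp U → Cp X := fun u => ⟨j u.1, (huc u.1).2 u.2⟩
  have hg : Function.Injective g := fun u u' h =>
    Subtype.ext (j.isOpenEmbedding.injective (congrArg Subtype.val h))
  refine (h.comp_injective hg).congr fun u => ?_
  simp only [Function.comp]
  congr 2
  exact (nrm_eq j inferInstance u.1).symm

/-- the Euler product converges somewhere -/
def HasConv (X : Scheme.{0}) : Prop := ∃ α : ℝ, 0 < α ∧ Conv X α

theorem glue_conv : Glue (SepFinType ℤ) (fun X _ => HasConv X) where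
  empty Z f hZ := by
    have : IsEmpty (Cp Z) := ⟨fun x => hZ.elim x.1⟩
    exact ⟨1, one_pos, summable_empty⟩
  iso {X Y} f g e _ := by
    rintro ⟨α, hα, h⟩
    obtain ⟨g, hg⟩ := exists_equiv_iso e
    refine ⟨α, hα, ?_⟩
    refine (g.summable_iff.2 h).congr fun x => ?_
    simp only [Function.comp]
    rw [hg]
  glue X Z U f i j hf hi hj hr := by
    rintro ⟨α, hα, h1⟩ ⟨β, hβ, h2⟩
    obtain ⟨e, e1, e2⟩ := exists_equiv f hf.1 i j hi hj hr
    refine ⟨max α β, lt_max_of_lt_left hα, ?_⟩
    have a1 := h1.mono hα (le_max_left α β)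
    have a2 := h2.mono hβ (le_max_right α β)
    refine e.summable_iff.1 ?_
    have b1 : Summable (((fun x : Cp X => (nrm X x.1 : ℝ) ^ (-max α β)) ∘ e) ∘ Sum.inl) := by
      refine a1.congr fun z => ?_
      simp only [Function.comp]
      rw [e1]
    have b2 : Summable (((fun x : Cp X => (nrm X x.1 : ℝ) ^ (-max α β)) ∘ e) ∘ Sum.inr) := by
      refine a2.congr fun z => ?_
      simp only [Function.comp]
      rw [e2]
    exact (b1.hasSum.sum b2.hasSum).summable
  sub X Z U f i j hf hi hj hr := by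
    rintro ⟨α, hα, h1⟩ -
    exact ⟨α, hα, (zeta_mul f hf.1 i j hi hj hr hα h1).1⟩

/-- **Serre**: the Euler product of every separated scheme of finite type over `ℤ` converges in some
half plane. -/
theorem hasConv {X : Scheme.{0}} {f : X ⟶ Spec (.of ℤ)} (hf : SepFinType ℤ X f) : HasConv X := by
  refine p_all (cls_sepFinType ℤ) glue_conv (K := {1}) rfl Pool.Agent.R166.SZ.closure_one ?_ X f hf
  intro σ _ a _
  have h1 := conv_space σ
  let f0 : Spec (.of (MvPolynomial σ ℤ)) ⟶ Spec (.of ℤ) :=
    Spec.map (CommRingCat.ofHom (algebraMap ℤ (MvPolynomial σ ℤ)))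
  have hf0 : SepFinType ℤ _ f0 := (cls_sepFinType ℤ).affine _ inferInstance
  let u0 : compl a ⟶ Spec (.of (MvPolynomial σ ℤ)) :=
    Spec.map (CommRingCat.ofHom (algebraMap (MvPolynomial σ ℤ) (Localization.Away a)))
  have hop : IsOpenImmersion u0 := IsOpenImmersion.of_isLocalization a
  exact ⟨_, by positivity, conv_open f0 hf0.1 u0 hop h1⟩

end Pool.Agent.R166.SZ
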