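import Mathlib

set_option autoImplicit false

/-!
# The Euler characteristic of a bounded long exact sequence
-/

namespace Pool.Agent.R166.SZ

open Module

/-- `∑ (-1)^{i+1} dim` -/
noncomputable def chi (d : ℕ → ℕ) : ℤ := ∑ᶠ i : ℕ, (-1) ^ (i + 1) * (d i : ℤ)

theorem chi_eq (d : ℕ → ℕ) (n : ℕ) (h : ∀ i, n ≤ i → d i = 0) :
    chi d = ∑ i ∈ Finset.range n, (-1) ^ (i + 1) * (d i : ℤ) := by
  rw [chi]
  refine finsum_eq_sum_of_support_subset _ fun i hi => ?_
  rw [Function.mem_support] at hi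
  rw [Finset.coe_range, Set.mem_Iio]
  by_contra hcon
  exact hi (by rw [h i (not_lt.1 hcon)]; simp)

theorem telescope (z x u a b d : ℕ → ℕ) (hz : ∀ i, z i = a i + d i) (hx : ∀ i, x i = a i + b i)
    (hu0 : u 0 = b 0) (hu : ∀ i, u (i + 1) = b (i + 1) + d i) (n : ℕ) :
    ∑ i ∈ Finset.range (n + 1), (-1 : ℤ) ^ (i + 1) * ((z i : ℤ) + u i - x i) =
      (-1) ^ (n + 1) * d n := by
  induction n with
  | zero =>
    rw [Finset.sum_range_one, hz, hx, hu0]
    push_cast
    ring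
  | succ n ih =>
    rw [Finset.sum_range_succ, ih, hz, hx, hu]
    push_cast
    ring

variable {Z X U : ℕ → Type} [∀ i, AddCommGroup (Z i)] [∀ i, Module ℚ (Z i)]
  [∀ i, AddCommGroup (X i)] [∀ i, Module ℚ (X i)] [∀ i, AddCommGroup (U i)] [∀ i, Module ℚ (U i)]

theorem finrank_of_exact {A B C : Type} [AddCommGroup A] [Module ℚ A] [AddCommGroup B] [Module ℚ B]
    [AddCommGroup C] [Module ℚ C] [Module.Finite ℚ B] (f : A →ₗ[ℚ] B) (g : B →ₗ[ℚ] C)
    (h : Function.Exact f g) : finrank ℚ B = finrank ℚ g.range + finrank ℚ f.range := by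
  have h1 := g.finrank_range_add_finrank_ker
  have h2 : LinearMap.ker g = f.range := by
    ext x
    rw [LinearMap.mem_ker, LinearMap.mem_range]
    exact h x
  rw [h2] at h1
  exact h1.symm

/-- the Euler characteristics in a bounded long exact sequence -/
theorem chi_add (a : ∀ i, Z i →ₗ[ℚ] X i) (b : ∀ i, X i →ₗ[ℚ] U i) (d : ∀ i, U (i + 1) →ₗ[ℚ] Z i)
    (h1 : ∀ i, Function.Exact (a i) (b i)) (h2 : ∀ i, Function.Exact (b (i + 1)) (d i))
    (h3 : ∀ i, Function.Exact (d i) (a i)) (h4 : Function.Surjective (b 0))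
    (fZ : ∀ i, Module.Finite ℚ (Z i)) (fX : ∀ i, Module.Finite ℚ (X i))
    (fU : ∀ i, Module.Finite ℚ (U i)) (bZ : {i | Nontrivial (Z i)}.Finite)
    (bX : {i | Nontrivial (X i)}.Finite) (bU : {i | Nontrivial (U i)}.Finite) :
    chi (fun i => finrank ℚ (X i)) =
      chi (fun i => finrank ℚ (Z i)) + chi (fun i => finrank ℚ (U i)) := by
  obtain ⟨n, hn⟩ := ((bZ.union bX).union bU).bddAbove
  have key : ∀ i, n + 1 ≤ i → finrank ℚ (Z i) = 0 ∧ finrank ℚ (X i) = 0 ∧ finrank ℚ (U i) = 0 := by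
    intro i hi
    have h5 : i ∉ ({i | Nontrivial (Z i)} ∪ {i | Nontrivial (X i)}) ∪ {i | Nontrivial (U i)} :=
      fun h => by have := hn h; omega
    simp only [Set.mem_union, Set.mem_setOf_eq, not_or, not_nontrivial_iff_subsingleton] at h5
    obtain ⟨⟨h6, h7⟩, h8⟩ := h5
    exact ⟨finrank_zero_of_subsingleton, finrank_zero_of_subsingleton,
      finrank_zero_of_subsingleton⟩
  rw [chi_eq _ (n + 2) fun i hi => (key i (by omega)).2.1,
    chi_eq _ (n + 2) fun i hi => (key i (by omega)).1,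
    chi_eq _ (n + 2) fun i hi => (key i (by omega)).2.2, ← Finset.sum_add_distrib]
  have h5 := telescope (fun i => finrank ℚ (Z i)) (fun i => finrank ℚ (X i))
    (fun i => finrank ℚ (U i)) (fun i => finrank ℚ (a i).range) (fun i => finrank ℚ (b i).range)
    (fun i => finrank ℚ (d i).range)
    (fun i => finrank_of_exact (d i) (a i) (h3 i))
    (fun i => by rw [finrank_of_exact (a i) (b i) (h1 i), add_comm])
    (by
      show finrank ℚ (U 0) = finrank ℚ (b 0).range
      rw [LinearMap.range_eq_top.2 h4, finrank_top])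
    (fun i => by rw [finrank_of_exact (b (i + 1)) (d i) (h2 i), add_comm]) (n + 1)
  have h6 : finrank ℚ (d (n + 1)).range = 0 := by
    have h7 := (d (n + 1)).range.finrank_le
    rw [(key (n + 1) le_rfl).1] at h7
    omega
  rw [h6, Nat.cast_zero, mul_zero] at h5
  have h7 : ∑ i ∈ Finset.range (n + 1 + 1), ((-1 : ℤ) ^ (i + 1) * (finrank ℚ (Z i) : ℤ) +
      (-1 : ℤ) ^ (i + 1) * (finrank ℚ (U i) : ℤ)) -
      ∑ i ∈ Finset.range (n + 1 + 1), (-1 : ℤ) ^ (i + 1) * (finrank ℚ (X i) : ℤ) = 0 := by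
    rw [← Finset.sum_sub_distrib, ← h5]
    exact Finset.sum_congr rfl fun i _ => by ring
  exact (sub_eq_zero.1 h7).symm

end Pool.Agent.R166.SZ
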