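import Pool.Agent.R166.SZ.Conv
import Pool.Agent.R166.SZ.Euler

set_option autoImplicit false

/-!
# Soulé's conjecture and complements of elementary arrangements
-/

open CategoryTheory AlgebraicGeometry Filter Topology
open Pool.Agent.R904.CU Pool.Agent.R904.EL

namespace Pool.Agent.R166.SZ

/-- `g` is a meromorphic continuation of the zeta function of `X` to the complex plane. -/
structure IsContinuation (X : Scheme.{0}) (g : ℂ → ℂ) : Prop where
  mero : ∀ s : ℂ, MeromorphicAt g s
  eq : ∃ σ : ℝ, ∀ s : ℂ, σ ≤ s.re → g s = zeta X s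

theorem IsContinuation.order_eq {X : Scheme.{0}} {g h : ℂ → ℂ} (hg : IsContinuation X g)
    (hh : IsContinuation X h) (s : ℂ) : meromorphicOrderAt g s = meromorphicOrderAt h s := by
  obtain ⟨σ, h1⟩ := hg.eq
  obtain ⟨τ, h2⟩ := hh.eq
  refine SZ.order_eq hg.mero hh.mero (σ := max σ τ) (fun z hz => ?_) s
  rw [h1 z ((le_max_left _ _).trans hz), h2 z ((le_max_right _ _).trans hz)]

theorem cont_empty {X : Scheme.{0}} (hX : IsEmpty X) : IsContinuation X fun _ => 1 :=
  ⟨fun s => MeromorphicAt.const 1 s, 0, fun s _ => (zeta_empty hX s).symm⟩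

theorem IsContinuation.iso {X Y : Scheme.{0}} (e : X ≅ Y) {g : ℂ → ℂ} (h : IsContinuation Y g) :
    IsContinuation X g := by
  obtain ⟨σ, h1⟩ := h.eq
  exact ⟨h.mero, σ, fun s hs => by rw [h1 s hs, zeta_iso e]⟩

section

variable {X Z U : Scheme.{0}} {f : X ⟶ Spec (.of ℤ)} (hf : SepFinType ℤ X f)
  {i : Z ⟶ X} {j : U ⟶ X} (hi : IsClosedImmersion i) (hj : IsOpenImmersion j)
  (hr : Set.range i = (Set.range j)ᶜ)

include hf hi hj hr

theorem cont_glue {g h : ℂ → ℂ} (hg : IsContinuation Z g) (hh : IsContinuation U h) :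
    IsContinuation X (g * h) := by
  obtain ⟨α, hα, hC⟩ := hasConv hf
  obtain ⟨-, -, h3⟩ := zeta_mul f hf.1 i j hi hj hr hα hC
  obtain ⟨σ, h1⟩ := hg.eq
  obtain ⟨τ, h2⟩ := hh.eq
  refine ⟨fun s => (hg.mero s).mul (hh.mero s), max α (max σ τ), fun s hs => ?_⟩
  rw [Pi.mul_apply, h1 s ((le_max_left _ _).trans ((le_max_right _ _).trans hs)),
    h2 s ((le_max_right _ _).trans ((le_max_right _ _).trans hs)),
    h3 s ((le_max_left _ _).trans hs)]

theorem cont_sub {g h : ℂ → ℂ} (hg : IsContinuation X g) (hh : IsContinuation U h) :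
    IsContinuation Z (g * h⁻¹) := by
  obtain ⟨α, hα, hC⟩ := hasConv hf
  obtain ⟨-, hU, h3⟩ := zeta_mul f hf.1 i j hi hj hr hα hC
  obtain ⟨σ, h1⟩ := hg.eq
  obtain ⟨τ, h2⟩ := hh.eq
  refine ⟨fun s => (hg.mero s).mul (hh.mero s).inv, max α (max σ τ), fun s hs => ?_⟩
  have hs1 : α ≤ s.re := (le_max_left _ _).trans hs
  rw [Pi.mul_apply, Pi.inv_apply, h1 s ((le_max_left _ _).trans ((le_max_right _ _).trans hs)),
    h2 s ((le_max_right _ _).trans ((le_max_right _ _).trans hs)), h3 s hs1,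
    mul_inv_cancel_right₀ (zeta_ne_zero hα hU hs1)]

end

/-- The zeta function has a meromorphic continuation to the complex plane. -/
def HasCont (X : Scheme.{0}) : Prop := ∃ g, IsContinuation X g

theorem glue_cont : Glue (SepFinType ℤ) (fun X _ => HasCont X) where
  empty Z f hZ := ⟨_, cont_empty hZ⟩
  iso f g e _ := fun ⟨h, hh⟩ => ⟨h, hh.iso e⟩
  glue X Z U f i j hf hi hj hr := fun ⟨g, hg⟩ ⟨h, hh⟩ => ⟨_, cont_glue hf hi hj hr hg hh⟩
  sub X Z U f i j hf hi hj hr := fun ⟨g, hg⟩ ⟨h, hh⟩ => ⟨_, cont_sub hf hi hj hr hg hh⟩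

/-- Rational higher Chow groups of cycles of dimension `-j`, with their formal properties which are
used. For a regular scheme `X` of dimension `d` this is the motivic cohomology
`H j i X = CH_{-j}(X, i)_ℚ = H^{2(d+j)-i}(X, ℚ(d+j))`. -/
structure ChowTheory where
  /-- the space `H j i X = CH_{-j}(X, i)_ℚ` -/
  H : ℕ → ℕ → Scheme.{0} → Type
  /-- its group structure -/
  grp : ∀ (j i : ℕ) (X : Scheme.{0}), AddCommGroup (H j i X)
  /-- its vector space structure -/
  mod : ∀ (j i : ℕ) (X : Scheme.{0}), Module ℚ (H j i X)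
  /-- the spaces of the empty scheme vanish -/
  empty : ∀ (j i : ℕ) (X : Scheme.{0}), IsEmpty X → Subsingleton (H j i X)
  /-- isomorphic schemes have isomorphic spaces -/
  iso : ∀ (j i : ℕ) (X Y : Scheme.{0}), (X ≅ Y) → Nonempty (H j i X ≃ₗ[ℚ] H j i Y)
  /-- the localization sequence
  `… → CH(U, i + 1) → CH(Z, i) → CH(X, i) → CH(U, i) → … → CH(U, 0) → 0` of a closed subscheme `Z`
  with the open complement `U` -/
  localization : ∀ (j : ℕ) (X Z U : Scheme.{0}) (f : X ⟶ Spec (.of ℤ)) (k : Z ⟶ X)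
    (u : U ⟶ X), SepFinType ℤ X f → IsClosedImmersion k → IsOpenImmersion u →
    Set.range k = (Set.range u)ᶜ →
    ∃ (a : ∀ i, H j i Z →ₗ[ℚ] H j i X) (b : ∀ i, H j i X →ₗ[ℚ] H j i U)
      (d : ∀ i, H j (i + 1) U →ₗ[ℚ] H j i Z),
      (∀ i, Function.Exact (a i) (b i)) ∧ (∀ i, Function.Exact (b (i + 1)) (d i)) ∧
      (∀ i, Function.Exact (d i) (a i)) ∧ Function.Surjective (b 0)

attribute [instance] ChowTheory.grp ChowTheory.mod

namespace ChowTheory

variable (T : ChowTheory)

/-- Each space `CH_{-j}(X, i)_ℚ` is finite dimensional and only finitely many of them are not zero. -/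
structure FiniteDim (j : ℕ) (X : Scheme.{0}) : Prop where
  finite : ∀ i, Module.Finite ℚ (T.H j i X)
  bounded : {i : ℕ | Nontrivial (T.H j i X)}.Finite

/-- The number `∑ (-1)^{i+1} dim CH_{-j}(X, i)_ℚ`. -/
noncomputable def chi (j : ℕ) (X : Scheme.{0}) : ℤ :=
  SZ.chi fun i => Module.finrank ℚ (T.H j i X)

/-- The strong form of Soulé's conjecture for `X` at `s = -j`: the zeta function has a meromorphic
continuation, the spaces `CH_{-j}(X, i)_ℚ` are finite dimensional and almost all zero, and the order of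
the zeta function at `s = -j` is `∑ (-1)^{i+1} dim CH_{-j}(X, i)_ℚ`. -/
structure Soule (j : ℕ) (X : Scheme.{0}) : Prop where
  cont : HasCont X
  fin : T.FiniteDim j X
  order : ∀ g, IsContinuation X g → meromorphicOrderAt g (-(j : ℂ)) = (T.chi j X : WithTop ℤ)

theorem Soule.of {j : ℕ} {X : Scheme.{0}} {g : ℂ → ℂ} (hg : IsContinuation X g)
    (hX : T.FiniteDim j X) (h : meromorphicOrderAt g (-(j : ℂ)) = (T.chi j X : WithTop ℤ)) :
    T.Soule j X :=
  ⟨⟨g, hg⟩, hX, fun g' hg' => by rw [hg'.order_eq hg, h]⟩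

theorem finite_of_exact {A B C : Type} [AddCommGroup A] [Module ℚ A] [AddCommGroup B] [Module ℚ B]
    [AddCommGroup C] [Module ℚ C] (f : A →ₗ[ℚ] B) (g : B →ₗ[ℚ] C) (h : Function.Exact f g)
    (hA : Module.Finite ℚ A) (hC : Module.Finite ℚ C) : Module.Finite ℚ B := by
  have h1 : Module.Finite ℚ f.range := inferInstance
  have h2 : LinearMap.ker g = f.range := by
    ext x
    rw [LinearMap.mem_ker, LinearMap.mem_range]
    exact h x
  have h3 : Module.Finite ℚ (LinearMap.ker g) := by rw [h2]; exact h1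
  have h4 : Module.Finite ℚ (B ⧸ LinearMap.ker g) := Module.Finite.equiv g.quotKerEquivRange.symm
  exact Module.Finite.of_submodule_quotient (LinearMap.ker g)

theorem subsingleton_of_exact {A B C : Type} [AddCommGroup A] [Module ℚ A] [AddCommGroup B]
    [Module ℚ B] [AddCommGroup C] [Module ℚ C] (f : A →ₗ[ℚ] B) (g : B →ₗ[ℚ] C)
    (h : Function.Exact f g) (hA : Subsingleton A) (hC : Subsingleton C) : Subsingleton B := by
  refine ⟨fun x y => ?_⟩
  have key : ∀ z : B, z = 0 := fun z => by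
    obtain ⟨w, rfl⟩ := (h z).1 (Subsingleton.elim _ _)
    rw [Subsingleton.elim w 0, map_zero]
  rw [key x, key y]

section

variable {X Z U : Scheme.{0}} {f : X ⟶ Spec (.of ℤ)} (hf : SepFinType ℤ X f)
  {k : Z ⟶ X} {u : U ⟶ X} (hk : IsClosedImmersion k) (hu : IsOpenImmersion u)
  (hr : Set.range k = (Set.range u)ᶜ) (j : ℕ)

include hf hk hu hr

theorem fin_glue (hZ : T.FiniteDim j Z) (hU : T.FiniteDim j U) : T.FiniteDim j X := by
  obtain ⟨a, b, d, h1, h2, h3, h4⟩ := T.localization j X Z U f k u hf hk hu hr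
  refine ⟨fun i => finite_of_exact (a i) (b i) (h1 i) (hZ.finite i) (hU.finite i), ?_⟩
  refine (hZ.bounded.union hU.bounded).subset fun i hi => ?_
  by_contra hcon
  rw [Set.mem_union, not_or] at hcon
  obtain ⟨c1, c2⟩ := hcon
  have d1 : Subsingleton (T.H j i Z) := not_nontrivial_iff_subsingleton.1 c1
  have d2 : Subsingleton (T.H j i U) := not_nontrivial_iff_subsingleton.1 c2
  exact not_nontrivial_iff_subsingleton.2 (subsingleton_of_exact (a i) (b i) (h1 i) d1 d2) hi

theorem fin_sub (hX : T.FiniteDim j X) (hU : T.FiniteDim j U) : T.FiniteDim j Z := by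
  obtain ⟨a, b, d, h1, h2, h3, h4⟩ := T.localization j X Z U f k u hf hk hu hr
  refine ⟨fun i => finite_of_exact (d i) (a i) (h3 i) (hU.finite (i + 1)) (hX.finite i), ?_⟩
  have h5 : {i : ℕ | Nontrivial (T.H j (i + 1) U)}.Finite :=
    hU.bounded.preimage (f := fun i : ℕ => i + 1) (Nat.succ_injective.injOn)
  refine (h5.union hX.bounded).subset fun i hi => ?_
  by_contra hcon
  rw [Set.mem_union, not_or] at hcon
  obtain ⟨c1, c2⟩ := hcon
  have d1 : Subsingleton (T.H j (i + 1) U) := not_nontrivial_iff_subsingleton.1 c1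
  have d2 : Subsingleton (T.H j i X) := not_nontrivial_iff_subsingleton.1 c2
  exact not_nontrivial_iff_subsingleton.2 (subsingleton_of_exact (d i) (a i) (h3 i) d1 d2) hi

theorem chi_glue (hZ : T.FiniteDim j Z) (hX : T.FiniteDim j X) (hU : T.FiniteDim j U) :
    T.chi j X = T.chi j Z + T.chi j U := by
  obtain ⟨a, b, d, h1, h2, h3, h4⟩ := T.localization j X Z U f k u hf hk hu hr
  exact chi_add a b d h1 h2 h3 h4 hZ.finite hX.finite hU.finite hZ.bounded hX.bounded hU.bounded

theorem soule_glue (hZ : T.Soule j Z) (hU : T.Soule j U) : T.Soule j X := by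
  obtain ⟨g, hg⟩ := hZ.cont
  obtain ⟨h, hh⟩ := hU.cont
  have hX := T.fin_glue hf hk hu hr j hZ.fin hU.fin
  refine Soule.of T (cont_glue hf hk hu hr hg hh) hX ?_
  rw [meromorphicOrderAt_mul (hg.mero _) (hh.mero _), hZ.order g hg, hU.order h hh,
    T.chi_glue hf hk hu hr j hZ.fin hX hU.fin]
  rfl

theorem soule_sub (hX : T.Soule j X) (hU : T.Soule j U) : T.Soule j Z := by
  obtain ⟨g, hg⟩ := hX.cont
  obtain ⟨h, hh⟩ := hU.cont
  have hZ := T.fin_sub hf hk hu hr j hX.fin hU.fin
  refine Soule.of T (cont_sub hf hk hu hr hg hh) hZ ?_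
  have h5 := T.chi_glue hf hk hu hr j hZ hX.fin hU.fin
  have h6 : T.chi j Z = T.chi j X + -T.chi j U := by rw [h5]; ring
  rw [meromorphicOrderAt_mul (hg.mero _) (hh.mero _).inv, meromorphicOrderAt_inv, hX.order g hg,
    hU.order h hh, h6]
  rfl

end

theorem finiteDim_empty {X : Scheme.{0}} (hX : IsEmpty X) (j : ℕ) : T.FiniteDim j X := by
  have h1 := fun i => T.empty j i X hX
  refine ⟨fun i => Module.Finite.of_finite, ?_⟩
  convert Set.finite_empty (α := ℕ) using 1
  ext i
  simp only [Set.mem_empty_iff_false, iff_false]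
  exact fun h => not_nontrivial_iff_subsingleton.2 (h1 i) h

theorem chi_empty {X : Scheme.{0}} (hX : IsEmpty X) (j : ℕ) : T.chi j X = 0 := by
  have h1 := fun i => T.empty j i X hX
  unfold chi
  rw [chi_eq _ 0 fun i _ => Module.finrank_zero_of_subsingleton, Finset.sum_range_zero]

theorem FiniteDim.iso {X Y : Scheme.{0}} (e : X ≅ Y) {j : ℕ} (h : T.FiniteDim j Y) :
    T.FiniteDim j X ∧ T.chi j X = T.chi j Y := by
  have g := fun i => (T.iso j i X Y e).some
  refine ⟨⟨fun i => ?_, ?_⟩, ?_⟩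
  · have := h.finite i
    exact Module.Finite.equiv (g i).symm
  · refine h.bounded.subset fun i hi => ?_
    have : Nontrivial (T.H j i X) := hi
    exact (g i).symm.toEquiv.nontrivial
  · unfold chi
    congr 1
    funext i
    exact (g i).finrank_eq

theorem glue_fin (j : ℕ) : Glue (SepFinType ℤ) (fun X _ => T.FiniteDim j X) where
  empty Z f hZ := T.finiteDim_empty hZ j
  iso f g e _ h := (FiniteDim.iso T e h).1
  glue X Z U f k u hf hk hu hr hZ hU := T.fin_glue hf hk hu hr j hZ hU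
  sub X Z U f k u hf hk hu hr hX hU := T.fin_sub hf hk hu hr j hX hU

theorem glue_soule (j : ℕ) : Glue (SepFinType ℤ) (fun X _ => T.Soule j X) where
  empty Z f hZ := by
    refine Soule.of T (cont_empty hZ) (T.finiteDim_empty hZ j) ?_
    rw [T.chi_empty hZ, meromorphicOrderAt_const]
    simp
  iso f g e _ h := by
    obtain ⟨c, hc⟩ := h.cont
    obtain ⟨h1, h2⟩ := FiniteDim.iso T e h.fin
    refine Soule.of T (hc.iso e) h1 ?_
    rw [h.order c hc, h2]
  glue X Z U f k u hf hk hu hr hZ hU := T.soule_glue hf hk hu hr j hZ hU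
  sub X Z U f k u hf hk hu hr hX hU := T.soule_sub hf hk hu hr j hX hU

end ChowTheory

/-- A property with `Glue` holds for all separated schemes of finite type over `ℤ` if and only if it
holds for the complements of elementary arrangements. -/
theorem all_iff {P : Scheme.{0} → Prop} (h : Glue (SepFinType ℤ) (fun X _ => P X)) :
    (∀ (X : Scheme.{0}) (f : X ⟶ Spec (.of ℤ)), SepFinType ℤ X f → P X) ↔
      ∀ (σ : Type) [Fintype σ], ∀ a ∈ elemProds ({1} : Set ℤ) σ, P (compl a) := by
  constructor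
  · intro h1 σ _ a _
    exact h1 _ (complHom a) ((cls_sepFinType ℤ).affine _ inferInstance)
  · intro h1 X f hf
    exact p_all (cls_sepFinType ℤ) h (K := {1}) rfl closure_one (fun σ _ a ha => h1 σ a ha) X f hf

end Pool.Agent.R166.SZ
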