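import Mathlib
import Pool.Agent.H126R3.ClosedPts

set_option autoImplicit false

/-!
# The zeta function of an arithmetic scheme, closed subschemes and their complements
-/

open CategoryTheory AlgebraicGeometry Filter Topology

namespace Pool.Agent.R166.SZ

/-- the closed points of `X` -/
abbrev Cp (X : Scheme.{0}) : Type := {x : X // IsClosed ({x} : Set X)}

/-- the number of elements of the residue field -/
noncomputable def nrm (X : Scheme.{0}) (x : X) : ℕ := Nat.card (X.residueField x)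

/-- The zeta function `ζ(X, s) = ∏ (1 - N(x)^(-s))⁻¹`, the product over the closed points. -/
noncomputable def zeta (X : Scheme.{0}) (s : ℂ) : ℂ :=
  ∏' x : Cp X, (1 - (nrm X x.1 : ℂ) ^ (-s))⁻¹

/-- `∑ N(x) ^ (-σ)` converges, the sum over the closed points -/
def Conv (X : Scheme.{0}) (σ : ℝ) : Prop := Summable fun x : Cp X => (nrm X x.1 : ℝ) ^ (-σ)

theorem nrm_ne_one (X : Scheme.{0}) (x : X) : nrm X x ≠ 1 := by
  intro h
  rw [nrm, Nat.card_eq_one_iff_unique] at h
  obtain ⟨h1, -⟩ := h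
  exact not_subsingleton (X.residueField x) h1

theorem nrm_eq {X Y : Scheme.{0}} (f : X ⟶ Y) (hf : SurjectiveOnStalks f) (x : X) :
    nrm X x = nrm Y (f x) := by
  have h1 : Function.Surjective (f.residueFieldMap x) := by
    have h2 : Function.Surjective (Y.residue (f x) ≫ f.residueFieldMap x) := by
      rw [Scheme.residue_residueFieldMap]
      exact (X.residue_surjective x).comp (f.stalkMap_surjective x)
    exact Function.Surjective.of_comp (g := Y.residue (f x)) h2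
  have h3 : Function.Injective (f.residueFieldMap x) := (f.residueFieldMap x).hom.injective
  exact (Nat.card_congr (Equiv.ofBijective _ ⟨h3, h1⟩)).symm

theorem jacobson {X : Scheme.{0}} (f : X ⟶ Spec (.of ℤ)) (hf : LocallyOfFiniteType f) :
    JacobsonSpace X := by
  have : IsJacobsonRing ℤ := Pool.Agent.H126R3.jac_int
  exact LocallyOfFiniteType.jacobsonSpace f

/-- the closed points of a closed subscheme and of its complement -/
theorem exists_equiv {X Z U : Scheme.{0}} (f : X ⟶ Spec (.of ℤ)) (hf : LocallyOfFiniteType f)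
    (i : Z ⟶ X) (j : U ⟶ X) (hi : IsClosedImmersion i) (hj : IsOpenImmersion j)
    (hr : Set.range i = (Set.range j)ᶜ) :
    ∃ e : Cp Z ⊕ Cp U ≃ Cp X, (∀ z, nrm X (e (Sum.inl z)).1 = nrm Z z.1) ∧
      ∀ u, nrm X (e (Sum.inr u)).1 = nrm U u.1 := by
  have hJ := jacobson f hf
  have hzc : ∀ z : Z, IsClosed ({i z} : Set X) ↔ IsClosed ({z} : Set Z) := by
    intro z
    have h1 := hi.isClosedEmbedding.preimage_closedPoints
    have h2 : z ∈ i ⁻¹' closedPoints X ↔ z ∈ closedPoints Z := by rw [h1]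
    exact h2
  have huc : ∀ u : U, IsClosed ({j u} : Set X) ↔ IsClosed ({u} : Set U) := by
    intro u
    have h1 := j.isOpenEmbedding.preimage_closedPoints
    have h2 : u ∈ j ⁻¹' closedPoints X ↔ u ∈ closedPoints U := by rw [h1]
    exact h2
  let g : Cp Z ⊕ Cp U → Cp X := Sum.elim (fun z => ⟨i z.1, (hzc z.1).2 z.2⟩)
    (fun u => ⟨j u.1, (huc u.1).2 u.2⟩)
  have hg : Function.Bijective g := by
    constructor
    · rintro (z | u) (z' | u') h
      · have h1 : i z.1 = i z'.1 := congrArg Subtype.val h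
        rw [Subtype.ext (hi.isClosedEmbedding.injective h1)]
      · have h1 : i z.1 = j u'.1 := congrArg Subtype.val h
        have h2 : i z.1 ∈ Set.range i := ⟨_, rfl⟩
        rw [hr] at h2
        exact (h2 ⟨u'.1, h1.symm⟩).elim
      · have h1 : j u.1 = i z'.1 := congrArg Subtype.val h
        have h2 : i z'.1 ∈ Set.range i := ⟨_, rfl⟩
        rw [hr] at h2
        exact (h2 ⟨u.1, h1⟩).elim
      · have h1 : j u.1 = j u'.1 := congrArg Subtype.val h
        rw [Subtype.ext (j.isOpenEmbedding.injective h1)]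
    · rintro ⟨x, hx⟩
      by_cases h : x ∈ Set.range j
      · obtain ⟨u, rfl⟩ := h
        exact ⟨Sum.inr ⟨u, (huc u).1 hx⟩, rfl⟩
      · have h2 : x ∈ Set.range i := by rw [hr]; exact h
        obtain ⟨z, rfl⟩ := h2
        exact ⟨Sum.inl ⟨z, (hzc z).1 hx⟩, rfl⟩
  refine ⟨Equiv.ofBijective g hg, fun z => ?_, fun u => ?_⟩
  · exact (nrm_eq i inferInstance z.1).symm
  · exact (nrm_eq j inferInstance u.1).symm

/-- isomorphic schemes -/
theorem exists_equiv_iso {X Y : Scheme.{0}} (e : X ≅ Y) :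
    ∃ g : Cp X ≃ Cp Y, ∀ x, nrm Y (g x).1 = nrm X x.1 := by
  have hc : ∀ x : X, IsClosed ({e.hom x} : Set Y) ↔ IsClosed ({x} : Set X) := by
    intro x
    have h1 := (Scheme.homeoOfIso e).isClosedEmbedding.preimage_closedPoints
    have h2 : x ∈ (Scheme.homeoOfIso e) ⁻¹' closedPoints Y ↔ x ∈ closedPoints X := by rw [h1]
    exact h2
  have hinj : Function.Injective e.hom := (Scheme.homeoOfIso e).injective
  have hsur : Function.Surjective e.hom := (Scheme.homeoOfIso e).surjective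
  let g : Cp X → Cp Y := fun x => ⟨e.hom x.1, (hc x.1).2 x.2⟩
  have hg : Function.Bijective g := by
    constructor
    · intro x x' h
      exact Subtype.ext (hinj (congrArg Subtype.val h))
    · rintro ⟨y, hy⟩
      obtain ⟨x, rfl⟩ := hsur y
      exact ⟨⟨x, (hc x).1 hy⟩, rfl⟩
  exact ⟨Equiv.ofBijective g hg, fun x => (nrm_eq e.hom inferInstance x.1).symm⟩

theorem zeta_iso {X Y : Scheme.{0}} (e : X ≅ Y) (s : ℂ) : zeta X s = zeta Y s := by
  obtain ⟨g, hg⟩ := exists_equiv_iso e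
  rw [zeta, zeta, ← g.tprod_eq]
  exact tprod_congr fun x => by rw [hg]

theorem zeta_empty {X : Scheme.{0}} (hX : IsEmpty X) (s : ℂ) : zeta X s = 1 := by
  have : IsEmpty (Cp X) := ⟨fun x => hX.elim x.1⟩
  rw [zeta]
  exact tprod_empty

/-- The factors of the product are close to one. -/
theorem summable_factor {ι : Type} (N : ι → ℕ) (hN : ∀ i, N i ≠ 1) {σ : ℝ} (hσ : 0 < σ)
    (h : Summable fun i => (N i : ℝ) ^ (-σ)) {s : ℂ} (hs : σ ≤ s.re) :
    Summable (fun i => (1 - (N i : ℂ) ^ (-s))⁻¹ - 1) ∧ ∀ i, (1 - (N i : ℂ) ^ (-s))⁻¹ ≠ 0 := by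
  have hs0 : 0 < s.re := hσ.trans_le hs
  have hsne : -s ≠ 0 := by
    intro h0
    have : s = 0 := neg_eq_zero.1 h0
    rw [this] at hs0
    exact lt_irrefl _ hs0
  have hnorm : ∀ i, ‖(N i : ℂ) ^ (-s)‖ ≤ (N i : ℝ) ^ (-σ) ∧
      ‖(N i : ℂ) ^ (-s)‖ ≤ (2 : ℝ) ^ (-σ) := by
    intro i
    rcases Nat.eq_zero_or_pos (N i) with h0 | hpos
    · rw [h0, Nat.cast_zero, Complex.zero_cpow hsne, norm_zero]
      exact ⟨by positivity, by positivity⟩
    · have h2 : 2 ≤ N i := by have := hN i; omega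
      have hr : (2 : ℝ) ≤ N i := by exact_mod_cast h2
      rw [Complex.norm_natCast_cpow_of_pos hpos, Complex.neg_re]
      have h3 : (N i : ℝ) ^ (-s.re) ≤ (N i : ℝ) ^ (-σ) :=
        Real.rpow_le_rpow_of_exponent_le (by linarith) (by linarith)
      refine ⟨h3, h3.trans ?_⟩
      exact Real.rpow_le_rpow_of_nonpos (by norm_num) hr (by linarith)
  have h2σ : (2 : ℝ) ^ (-σ) < 1 := Real.rpow_lt_one_of_one_lt_of_neg (by norm_num) (by linarith)
  have hne : ∀ i, 1 - (N i : ℂ) ^ (-s) ≠ 0 := by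
    intro i h0
    have h1 : (N i : ℂ) ^ (-s) = 1 := (sub_eq_zero.1 h0).symm
    have h2 := (hnorm i).2
    rw [h1, norm_one] at h2
    linarith
  refine ⟨?_, fun i => inv_ne_zero (hne i)⟩
  refine Summable.of_norm_bounded (h.mul_left (1 - (2 : ℝ) ^ (-σ))⁻¹) fun i => ?_
  have e1 : (1 - (N i : ℂ) ^ (-s))⁻¹ - 1 = (1 - (N i : ℂ) ^ (-s))⁻¹ * (N i : ℂ) ^ (-s) := by
    field_simp [hne i]
    ring
  rw [e1, norm_mul, norm_inv]
  have h4 : 1 - (2 : ℝ) ^ (-σ) ≤ ‖1 - (N i : ℂ) ^ (-s)‖ := by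
    have := norm_sub_norm_le (1 : ℂ) ((N i : ℂ) ^ (-s))
    rw [norm_one] at this
    linarith [(hnorm i).2]
  have h5 : 0 < 1 - (2 : ℝ) ^ (-σ) := by linarith
  exact mul_le_mul (inv_anti₀ h5 h4) (hnorm i).1 (norm_nonneg _) (inv_nonneg.2 h5.le)

/-- the Euler product converges to a nonzero number -/
theorem hasProd_ne {ι : Type} (N : ι → ℕ) (hN : ∀ i, N i ≠ 1) {σ : ℝ} (hσ : 0 < σ)
    (h : Summable fun i => (N i : ℝ) ^ (-σ)) {s : ℂ} (hs : σ ≤ s.re) :
    Multipliable (fun i => (1 - (N i : ℂ) ^ (-s))⁻¹) ∧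
      ∏' i, (1 - (N i : ℂ) ^ (-s))⁻¹ ≠ 0 := by
  obtain ⟨h1, h2⟩ := summable_factor N hN hσ h hs
  have h3 := Complex.summable_log_one_add_of_summable h1
  have h4 : Summable fun i => Complex.log ((1 - (N i : ℂ) ^ (-s))⁻¹) := by
    refine h3.congr fun i => ?_
    congr 1
    ring
  refine ⟨Complex.multipliable_of_summable_log h4, ?_⟩
  rw [← Complex.cexp_tsum_eq_tprod h2 h4]
  exact Complex.exp_ne_zero _

theorem zeta_ne_zero {X : Scheme.{0}} {σ : ℝ} (hσ : 0 < σ) (h : Conv X σ) {s : ℂ}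
    (hs : σ ≤ s.re) : zeta X s ≠ 0 :=
  (hasProd_ne (fun x : Cp X => nrm X x.1) (fun x => nrm_ne_one X x.1) hσ h hs).2

/-- the zeta functions of a closed subscheme and of its complement -/
theorem zeta_mul {X Z U : Scheme.{0}} (f : X ⟶ Spec (.of ℤ)) (hf : LocallyOfFiniteType f)
    (i : Z ⟶ X) (j : U ⟶ X) (hi : IsClosedImmersion i) (hj : IsOpenImmersion j)
    (hr : Set.range i = (Set.range j)ᶜ) {σ : ℝ} (hσ : 0 < σ) (h : Conv X σ) :
    Conv Z σ ∧ Conv U σ ∧ ∀ s : ℂ, σ ≤ s.re → zeta X s = zeta Z s * zeta U s := by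
  obtain ⟨e, h1, h2⟩ := exists_equiv f hf i j hi hj hr
  have h3 : Summable fun x : Cp Z ⊕ Cp U => (nrm X (e x).1 : ℝ) ^ (-σ) := e.summable_iff.2 h
  have hZ : Conv Z σ := by
    have := h3.comp_injective (i := Sum.inl) Sum.inl_injective
    refine this.congr fun z => ?_
    simp only [Function.comp]
    rw [h1]
  have hU : Conv U σ := by
    have := h3.comp_injective (i := Sum.inr) Sum.inr_injective
    refine this.congr fun z => ?_
    simp only [Function.comp]
    rw [h2]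
  refine ⟨hZ, hU, fun s hs => ?_⟩
  have a1 := (hasProd_ne (fun x : Cp Z => nrm Z x.1) (fun x => nrm_ne_one Z x.1) hσ hZ hs).1.hasProd
  have a2 := (hasProd_ne (fun x : Cp U => nrm U x.1) (fun x => nrm_ne_one U x.1) hσ hU hs).1.hasProd
  have a3 : HasProd (fun x : Cp Z ⊕ Cp U => (1 - (nrm X (e x).1 : ℂ) ^ (-s))⁻¹)
      (zeta Z s * zeta U s) := by
    refine HasProd.sum ?_ ?_
    · refine a1.congr_fun ?_ 
      intro z
      simp only [Function.comp]
      rw [h1]
    · refine a2.congr_fun ?_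
      intro z
      simp only [Function.comp]
      rw [h2]
  rw [← a3.tprod_eq, zeta]
  exact (e.tprod_eq (fun x : Cp X => (1 - (nrm X x.1 : ℂ) ^ (-s))⁻¹)).symm

end Pool.Agent.R166.SZ
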